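import Pool.Agent.H98.RFC.Targets

/-!
# ALL: the main theorem of the board
-/

set_option autoImplicit false

open MeasureTheory ProbabilityTheory Filter Topology

namespace Pool.Agent.H34.RFC

open Pool.Agent.H98.RFC

theorem small_r (R : ℕ) (m : ℕ → ℝ) (C c : ℝ) (hc : 0 < c) (hC : 0 < C) (h0 : ∀ L, 0 ≤ m L)
    (h : ∀ L : ℕ, 1 ≤ L → m L ≤ C * Real.exp (-(c * L))) :
    ∃ r : ℕ, (4 * R * (4 * r + 3 * R + 1) : ℝ) * m r ≤ 1 / 2 := by
  have h1 : Tendsto (fun r : ℕ => (r : ℝ) * Real.exp (-(c * r))) atTop (𝓝 0) := by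
    have h2 := Real.tendsto_pow_mul_exp_neg_atTop_nhds_zero 1
    have h3 : Tendsto (fun r : ℕ => c * (r : ℝ)) atTop atTop :=
      tendsto_natCast_atTop_atTop.const_mul_atTop hc
    have h4 := (h2.comp h3).const_mul (1 / c)
    rw [mul_zero] at h4
    refine h4.congr fun r => ?_
    simp only [Function.comp_apply, pow_one]
    field_simp
  have h5 : Tendsto (fun r : ℕ => Real.exp (-(c * (r : ℝ)))) atTop (𝓝 0) := by
    apply Real.tendsto_exp_neg_atTop_nhds_zero.comp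
    exact tendsto_natCast_atTop_atTop.const_mul_atTop hc
  have h6 : Tendsto (fun r : ℕ => 16 * R * C * ((r : ℝ) * Real.exp (-(c * r))) +
      4 * R * (3 * R + 1) * C * Real.exp (-(c * (r : ℝ)))) atTop (𝓝 0) := by
    have h7 := (h1.const_mul (16 * R * C)).add (h5.const_mul (4 * R * (3 * R + 1) * C))
    rw [mul_zero, mul_zero, add_zero] at h7
    exact h7
  have h8 := (h6.eventually (ge_mem_nhds (show (0 : ℝ) < 1 / 2 by norm_num))).and
    (eventually_ge_atTop 1)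
  obtain ⟨r, hr, hr1⟩ := h8.exists
  refine ⟨r, ?_⟩
  have h9 := h r hr1
  have h10 : (0 : ℝ) ≤ 4 * R * (4 * r + 3 * R + 1) := by positivity
  calc (4 * R * (4 * r + 3 * R + 1) : ℝ) * m r
      ≤ (4 * R * (4 * r + 3 * R + 1) : ℝ) * (C * Real.exp (-(c * r))) :=
        mul_le_mul_of_nonneg_left h9 h10
    _ = 16 * R * C * ((r : ℝ) * Real.exp (-(c * r))) +
      4 * R * (3 * R + 1) * C * Real.exp (-(c * (r : ℝ))) := by ring
    _ ≤ 1 / 2 := hr

theorem pf_ALL (hIN : T_IN) (hM : T_M01) (hD : T_DEC) (hS : T_SEQ) : T_ALL := by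
  intro R
  refine ⟨fun J hJ T ε hT => hIN R J hJ T ε hT, ?_, ?_⟩
  · intro J hJ T ε hT hne r
    by_contra hlt
    push Not at hlt
    apply hne
    have hm := (hM R J hJ T ε hT)
    obtain ⟨C, hC, c, hc, h⟩ := hD R r (4 * R * (4 * r + 3 * R + 1) : ℝ)
      ((4 * R * (4 * r + 3 * R + 1) : ℝ) * mag R J T ε r) (by positivity)
      (mul_nonneg (by positivity) (hm r).1) hlt
    exact ⟨C, hC, c, hc, h (fun L => mag R J T ε L) hm
      (fun n L hL => hIN R J hJ T ε hT r n L hL) le_rfl⟩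
  · intro J₀ hJ₀ T₀ ε₀ hT₀ hε₀ ⟨C₀, hC₀, c₀, hc₀, h₀⟩
    obtain ⟨r, hr⟩ := small_r R (fun L => mag R J₀ T₀ ε₀ L) C₀ c₀ hc₀ hC₀
      (fun L => (hM R J₀ hJ₀ T₀ ε₀ hT₀ L).1) h₀
    obtain ⟨C, hC, c, hc, hdec⟩ := hD R r (4 * R * (4 * r + 3 * R + 1) : ℝ) (3 / 4)
      (by positivity) (by norm_num) (by norm_num)
    have hδ : ∃ δ > 0, ∀ (J : Site → ℝ), IsCoupling R J → ∀ (T ε : ℝ), 0 ≤ T →
        (∀ z, |J z - J₀ z| < δ) → |T - T₀| < δ → |ε - ε₀| < δ →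
        (4 * R * (4 * r + 3 * R + 1) : ℝ) * mag R J T ε r ≤ 3 / 4 := by
      by_contra hcon
      push Not at hcon
      have hch : ∀ n : ℕ, ∃ (J : Site → ℝ) (T ε : ℝ), IsCoupling R J ∧ 0 ≤ T ∧
          (∀ z, |J z - J₀ z| < 1 / ((n : ℝ) + 1)) ∧ |T - T₀| < 1 / ((n : ℝ) + 1) ∧
          |ε - ε₀| < 1 / ((n : ℝ) + 1) ∧
          3 / 4 < (4 * R * (4 * r + 3 * R + 1) : ℝ) * mag R J T ε r := by
        intro n
        obtain ⟨J, hJ, T, ε, hT, h1, h2, h3, h4⟩ := hcon (1 / ((n : ℝ) + 1)) (by positivity)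
        exact ⟨J, T, ε, hJ, hT, h1, h2, h3, h4⟩
      choose J T ε hJ hT h1 h2 h3 h4 using hch
      have hz : Tendsto (fun n : ℕ => 1 / ((n : ℝ) + 1)) atTop (𝓝 0) :=
        tendsto_one_div_add_atTop_nhds_zero_nat
      have hlim : ∀ (a : ℕ → ℝ) (a₀ : ℝ), (∀ n, |a n - a₀| < 1 / ((n : ℝ) + 1)) →
          Tendsto a atTop (𝓝 a₀) := by
        intro a a₀ ha
        rw [tendsto_iff_dist_tendsto_zero]
        exact squeeze_zero (fun n => dist_nonneg) (fun n => by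
          rw [Real.dist_eq]
          exact (ha n).le) hz
      have h5 := hS R J J₀ T ε T₀ ε₀ r hJ hT hT₀ hε₀
        (fun z => hlim (fun n => J n z) (J₀ z) fun n => h1 n z) (hlim T T₀ h2) (hlim ε ε₀ h3)
      have h6 := h5.const_mul (4 * R * (4 * r + 3 * R + 1) : ℝ)
      have h7 : (3 : ℝ) / 4 ≤ (4 * R * (4 * r + 3 * R + 1) : ℝ) * mag R J₀ T₀ ε₀ r :=
        ge_of_tendsto' h6 fun n => (h4 n).le
      have h8 : (4 * R * (4 * r + 3 * R + 1) : ℝ) * mag R J₀ T₀ ε₀ r ≤ 1 / 2 := hr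
      linarith
    obtain ⟨δ, hδ0, hδ⟩ := hδ
    refine ⟨δ, hδ0, C, hC, c, hc, ?_⟩
    intro J hJ T ε hT h1 h2 h3
    exact hdec (fun L => mag R J T ε L) (hM R J hJ T ε hT)
      (fun n L hL => hIN R J hJ T ε hT r n L hL) (hδ J hJ T ε hT h1 h2 h3)

end Pool.Agent.H34.RFC
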