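import Pool.Agent.H98.RFC.Targets

/-!
# DEC: the inequality gives exponential decay
-/

set_option autoImplicit false

namespace Pool.Agent.H34.RFC

open Pool.Agent.H98.RFC

theorem pf_DEC : T_DEC := by
  intro R r A θ hA hθ0 hθ1
  obtain ⟨t, ht0, ht1, hθt⟩ : ∃ t : ℝ, 0 < t ∧ t < 1 ∧ θ ≤ t :=
    ⟨max θ (1 / 2), lt_of_lt_of_le (by norm_num) (le_max_right _ _),
      max_lt hθ1 (by norm_num), le_max_left _ _⟩
  have key : ∀ m : ℕ → ℝ, (∀ L, 0 ≤ m L ∧ m L ≤ 1) →
      (∀ n L : ℕ, n * (2 * r + 2 * R) + r ≤ L → m L ≤ A ^ n * m r ^ (n + 1)) → A * m r ≤ θ →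
      ∀ n L : ℕ, n * (2 * r + 2 * R) + r ≤ L → m L ≤ t ^ n := by
    intro m h01 hin hAm n L hL
    have h1 := hin n L hL
    have h2 : A ^ n * m r ^ (n + 1) = (A * m r) ^ n * m r := by
      rw [mul_pow, pow_succ]
      ring
    rw [h2] at h1
    have h3 : 0 ≤ A * m r := mul_nonneg hA (h01 r).1
    calc m L ≤ (A * m r) ^ n * m r := h1
      _ ≤ t ^ n * 1 := by
        apply mul_le_mul (pow_le_pow_left₀ h3 (hAm.trans hθt) n) (h01 r).2 (h01 r).1
        positivity
      _ = t ^ n := mul_one _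
  rcases Nat.eq_zero_or_pos (2 * r + 2 * R) with hD | hD
  · refine ⟨1, one_pos, 1, one_pos, ?_⟩
    intro m h01 hin hAm L hL
    have h1 : ∀ n : ℕ, m L ≤ t ^ n := by
      intro n
      apply key m h01 hin hAm n L
      rw [hD]
      omega
    have h2 : m L ≤ 0 :=
      ge_of_tendsto' (tendsto_pow_atTop_nhds_zero_of_lt_one ht0.le ht1) h1
    refine h2.trans ?_
    positivity
  · have hDr : (0 : ℝ) < ((2 * r + 2 * R : ℕ) : ℝ) := by exact_mod_cast hD
    have hlog : Real.log t < 0 := Real.log_neg ht0 ht1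
    obtain ⟨D, hDdef⟩ : ∃ D : ℕ, D = 2 * r + 2 * R := ⟨_, rfl⟩
    rw [← hDdef] at hD hDr
    have hc : 0 < -Real.log t / D := div_pos (by linarith) hDr
    refine ⟨Real.exp (-Real.log t / D * (r + D)), Real.exp_pos _, -Real.log t / D, hc, ?_⟩
    intro m h01 hin hAm L hL
    rw [← Real.exp_add]
    by_cases hLr : L < r
    · refine (h01 L).2.trans ?_
      apply Real.one_le_exp
      have h1 : (L : ℝ) ≤ r := by exact_mod_cast hLr.le
      nlinarith
    · have hLr' : r ≤ L := not_lt.mp hLr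
      obtain ⟨n, hn⟩ : ∃ n : ℕ, n = (L - r) / D := ⟨_, rfl⟩
      have h1 : n * D ≤ L - r := by
        rw [hn]
        exact Nat.div_mul_le_self _ _
      have h2 : L - r < (n + 1) * D := by
        rw [hn]
        have := Nat.lt_mul_div_succ (L - r) hD
        rw [mul_comm]
        exact this
      have h3 := key m h01 hin hAm n L (by rw [← hDdef]; omega)
      refine h3.trans ?_
      have h4 : t ^ n = Real.exp (n * Real.log t) := by
        rw [mul_comm, Real.exp_mul, Real.exp_log ht0, Real.rpow_natCast]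
      rw [h4]
      apply Real.exp_le_exp.mpr
      have h5 : (L : ℝ) < (n + 1) * D + r := by
        have : L < (n + 1) * D + r := by omega
        exact_mod_cast this
      have h6 : (n : ℝ) * Real.log t = -(-Real.log t / D) * (n * D) := by
        field_simp
      rw [h6]
      nlinarith

end Pool.Agent.H34.RFC
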