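import Pool.Agent.H98.RFC.Targets

/-!
# SEQ: sequential continuity
-/

set_option autoImplicit false

open MeasureTheory ProbabilityTheory Filter Topology

namespace Pool.Agent.H34.RFC

open Pool.Agent.H98.RFC

instance : IsProbabilityMeasure gam := by
  unfold gam
  infer_instance

theorem zero_mem_box (L : ℕ) : (0 : Site) ∈ box L := by
  unfold box
  rw [Finset.mem_product]
  constructor <;> rw [Finset.mem_Icc] <;> constructor <;> simp

theorem pf_SEQ (hPC : T_PC) (hPC0 : T_PC0) (hU : T_UNQ) (hM : T_MEA) : T_SEQ := by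
  intro R J J₀ T ε T₀ ε₀ L hJ hT hT₀ hε₀ hJl hTl hεl
  unfold mag
  apply tendsto_integral_of_dominated_convergence (fun _ => (1 : ℝ))
  · intro n
    exact ((hM R (J n) (hJ n) (T n) (ε n) (hT n) (box L) 0 (zero_mem_box L)).1).aestronglyMeasurable
  · exact integrable_const _
  · intro n
    refine Eventually.of_forall fun η => ?_
    rw [Real.norm_eq_abs]
    exact (hM R (J n) (hJ n) (T n) (ε n) (hT n) (box L) 0 (zero_mem_box L)).2 η
  · rcases eq_or_lt_of_le hT₀ with h0 | h0
    · subst h0
      have h1 := hU R J₀ ε₀ hε₀.ne' (box L) (↑(box L))ᶜ disjoint_compl_left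
      have h2 := hU R J₀ ε₀ hε₀.ne' (box L) ∅ (Set.empty_disjoint _)
      filter_upwards [h1, h2] with η h3 h4
      exact hPC0 R J J₀ (fun n x => ε n * η x) (fun x => ε₀ * η x) T (box L) 0 h3 h4 hJl
        (fun z => hεl.mul_const _) hT hTl
    · refine Eventually.of_forall fun η => ?_
      exact hPC R J J₀ (fun n x => ε n * η x) (fun x => ε₀ * η x) T T₀ (box L) 0 h0 hJl
        (fun z => hεl.mul_const _) hTl

end Pool.Agent.H34.RFC
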